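import Pool.Agent.H41.CP.Stmts

set_option autoImplicit false

namespace Pool.Agent.H387.CP

open Pool.Agent.H41.CP

theorem self_inv (f : P6) (c : Fin 6) : f (f⁻¹ c) = c := Equiv.apply_symm_apply f c

theorem onto {F : Fin 3 → P6} {S T : Finset (Fin 6)} (h : Q F S T) (i : Fin 3) :
    S.image (F i) = T := by
  apply Finset.eq_of_subset_of_card_le
  · intro y hy
    obtain ⟨x, hx, rfl⟩ := Finset.mem_image.1 hy
    exact (h.2.2 x hx).1 i
  · rw [Finset.card_image_of_injective _ (F i).injective, h.1, h.2.1]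

theorem mem_iff {F : Fin 3 → P6} {S T : Finset (Fin 6)} (h : Q F S T) (i : Fin 3) (x : Fin 6) :
    F i x ∈ T ↔ x ∈ S := by
  rw [← onto h i]
  constructor
  · intro hx
    obtain ⟨y, hy, hyx⟩ := Finset.mem_image.1 hx
    rw [← (F i).injective hyx]
    exact hy
  · exact fun hx => Finset.mem_image_of_mem _ hx

theorem row {F : Fin 3 → P6} {g : P6} {S T : Finset (Fin 6)} (h : RB F g S T) {x : Fin 6}
    (hx : x ∈ S) : (Finset.univ.image fun i => F i x).card = 3 ∧
      g x ∉ (Finset.univ.image fun i => F i x) ∧ g x ∈ T ∧ ∀ i, F i x ∈ T := by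
  have h1 := h.2.2 x hx
  have h2 : (Finset.univ.image fun i => F i x).card ≤ 3 :=
    Finset.card_image_le.trans (by simp)
  have h3 : (insert (g x) (Finset.univ.image fun i => F i x)).card = 4 := by rw [h1]; exact h.2.1
  have h4 := Finset.card_insert_le (g x) (Finset.univ.image fun i => F i x)
  refine ⟨by omega, fun h5 => ?_, ?_, fun i => ?_⟩
  · rw [Finset.insert_eq_of_mem h5] at h3
    omega
  · rw [← h1]
    exact Finset.mem_insert_self _ _
  · rw [← h1]
    exact Finset.mem_insert_of_mem (Finset.mem_image_of_mem _ (Finset.mem_univ i))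

theorem rcase {F : Fin 3 → P6} {g : P6} {S T S0 T0 : Finset (Fin 6)} (hQ : Q F S T)
    (hR : RB F g S0 T0) : T0 = T ∧ S0 ⊆ S ∧ ∀ x ∈ S0, g x ∈ T ∧ ∀ i, g x ≠ F i x := by
  -- a common row
  obtain ⟨x, hx0, hx⟩ : ∃ x, x ∈ S0 ∧ x ∈ S := by
    by_contra hcon
    push Not at hcon
    have h1 : Disjoint S0 S := Finset.disjoint_left.2 hcon
    have h2 := Finset.card_union_of_disjoint h1
    have h3 : (S0 ∪ S).card ≤ 6 := (Finset.card_le_univ _).trans (by simp)
    rw [hR.1, hQ.1] at h2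
    omega
  have hsub : ∀ y ∈ S0, y ∈ S → (Finset.univ.image fun i => F i y) ⊆ T0 ∩ T := by
    intro y hy0 hy c hc
    obtain ⟨i, -, rfl⟩ := Finset.mem_image.1 hc
    exact Finset.mem_inter.2 ⟨(row hR hy0).2.2.2 i, (hQ.2.2 y hy).1 i⟩
  have hcard : 3 ≤ (T0 ∩ T).card := by
    have h1 := Finset.card_le_card (hsub x hx0 hx)
    rw [(row hR hx0).1] at h1
    exact h1
  have hTT : T0 = T := by
    by_contra hne
    have h1 : (T0 ∩ T).card ≠ 4 := by
      intro h2
      apply hne
      have h3 : T0 ∩ T = T0 := Finset.eq_of_subset_of_card_le Finset.inter_subset_left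
        (by rw [h2, hR.2.1])
      have h4 : T0 ⊆ T := by rw [← h3]; exact Finset.inter_subset_right
      exact Finset.eq_of_subset_of_card_le h4 (by rw [hR.2.1, hQ.2.1])
    have h2 : (T0 ∩ T).card ≤ 4 := by
      have := Finset.card_le_card (Finset.inter_subset_left : T0 ∩ T ⊆ T0)
      rw [hR.2.1] at this
      exact this
    have h3 : (T0 \ T).card = 1 := by
      have := Finset.card_sdiff_add_card_inter T0 T
      rw [hR.2.1] at this
      omega
    have h4 : ∀ y ∈ S0, y ∈ S := by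
      intro y hy0
      by_contra hy
      have h5 : (Finset.univ.image fun i => F i y) ⊆ T0 \ T := by
        intro c hc
        obtain ⟨i, -, rfl⟩ := Finset.mem_image.1 hc
        exact Finset.mem_sdiff.2 ⟨(row hR hy0).2.2.2 i, fun h => hy ((mem_iff hQ i y).1 h)⟩
      have h6 := Finset.card_le_card h5
      rw [(row hR hy0).1] at h6
      omega
    have h5 : S0.image g ⊆ T0 \ T := by
      intro c hc
      obtain ⟨y, hy0, rfl⟩ := Finset.mem_image.1 hc
      have h6 : (Finset.univ.image fun i => F i y) = T0 ∩ T :=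
        Finset.eq_of_subset_of_card_le (hsub y hy0 (h4 y hy0)) (by
          rw [(row hR hy0).1]
          omega)
      have h7 := (row hR hy0).2.1
      rw [h6] at h7
      have h8 := (row hR hy0).2.2.1
      exact Finset.mem_sdiff.2 ⟨h8, fun h => h7 (Finset.mem_inter.2 ⟨h8, h⟩)⟩
    have h6 := Finset.card_le_card h5
    rw [Finset.card_image_of_injective _ g.injective, hR.1] at h6
    omega
  subst hTT
  refine ⟨rfl, fun y hy => (mem_iff hQ 0 y).1 ((row hR hy).2.2.2 0), fun y hy => ?_⟩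
  refine ⟨(row hR hy).2.2.1, fun i h => (row hR hy).2.1 ?_⟩
  rw [h]
  exact Finset.mem_image_of_mem (fun i => F i y) (Finset.mem_univ i)

theorem Q_inv {F : Fin 3 → P6} {S T : Finset (Fin 6)} (h : Q F S T) : Q (inv3 F) T S := by
  have h1 : ∀ c ∈ T, ∀ i, (F i)⁻¹ c ∈ S := by
    intro c hc i
    rw [← mem_iff h i, self_inv]
    exact hc
  refine ⟨h.2.1, h.1, fun c hc => ⟨fun i => h1 c hc i, fun i j hij => ?_⟩⟩
  have h2 : (F i)⁻¹ c = (F j)⁻¹ c := hij
  apply (h.2.2 _ (h1 c hc i)).2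
  show F i ((F i)⁻¹ c) = F j ((F i)⁻¹ c)
  rw [self_inv, h2, self_inv]

theorem qb (hbb : S_BB) : S_QB := by
  intro F g S T hQ hbad
  rcases hbb F g hbad with ⟨S0, T0, hR⟩ | ⟨S0, T0, hR⟩
  · obtain ⟨-, h1, h2⟩ := rcase hQ hR
    exact ⟨S0, h1, hR.1, h2⟩
  · obtain ⟨-, h1, h2⟩ := rcase (Q_inv hQ) hR
    refine ⟨T0.image (fun c => g⁻¹ c), ?_, ?_, ?_⟩
    · intro x hx
      obtain ⟨c, hc, rfl⟩ := Finset.mem_image.1 hx
      exact (h2 c hc).1
    · rw [Finset.card_image_of_injective _ (g⁻¹ : P6).injective]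
      exact hR.1
    · intro x hx
      obtain ⟨c, hc, rfl⟩ := Finset.mem_image.1 hx
      simp only [self_inv]
      refine ⟨h1 hc, fun i hi => (h2 c hc).2 i ?_⟩
      show g⁻¹ c = (F i)⁻¹ c
      rw [Equiv.Perm.eq_inv_iff_eq]
      exact hi.symm

end Pool.Agent.H387.CP
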